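import Pool.Agent.W314.BA.Stm

/-! MP_f2742c_an, part BA-SF: the result for `SL(2,ℝ)` from the system, the convergence theorem on
the product and the absence of a spectral gap on the product. -/

open MeasureTheory Set Filter Topology Real
open scoped ENNReal NNReal

namespace W137.BA

open Pool.Agent.W314.BA

noncomputable section

variable {Y : Type} [MeasurableSpace Y] [MulAction G Y] {μ : Measure Y} {c : G → Y → ℤ}

theorem c_one (hS : Sys μ c) (y : Y) : c 1 y = 0 := by
  have h := hS.coc 1 1 y
  rw [one_mul, one_smul] at h
  omega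

/-- the skew product action on `Y × T` -/
@[reducible] def act (hS : Sys μ c) (α : T) : MulAction G (Y × T) where
  smul g p := (g • p.1, p.2 + c g p.1 • α)
  one_smul p := by
    change ((1 : G) • p.1, p.2 + c 1 p.1 • α) = p
    rw [one_smul, c_one hS, zero_smul, add_zero]
  mul_smul g h p := by
    change ((g * h) • p.1, p.2 + c (g * h) p.1 • α) =
      (g • (h • p.1), (p.2 + c h p.1 • α) + c g (h • p.1) • α)
    rw [mul_smul, hS.coc, add_smul]
    congr 1
    abel

theorem act_meas (hS : Sys μ c) (α : T) :
    Measurable (fun p : G × (Y × T) => ((p.1 • p.2.1, p.2.2 + c p.1 p.2.1 • α) : Y × T)) := by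
  have h1 : Measurable (fun p : G × (Y × T) => ((p.1, p.2.1) : G × Y)) :=
    measurable_fst.prodMk (measurable_fst.comp measurable_snd)
  have h2 : Measurable (fun n : ℤ => n • α) := Measurable.of_discrete
  refine Measurable.prodMk (hS.smul_meas.comp h1) ?_
  exact (measurable_snd.comp measurable_snd).add (h2.comp (hS.c_meas.comp h1))

theorem act_mp (hS : Sys μ c) (α : T) (g : G) :
    MeasurePreserving (fun p : Y × T => ((g • p.1, p.2 + c g p.1 • α) : Y × T))
      (μ.prod tm) (μ.prod tm) := by
  haveI := hS.prob
  haveI : IsProbabilityMeasure (tm : Measure T) := by unfold tm; infer_instance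
  have hm' : Measurable (Function.uncurry (fun (y : Y) (z : T) => z + c g y • α)) := by
    have h2 : Measurable (fun n : ℤ => n • α) := Measurable.of_discrete
    have h1 : Measurable (fun p : Y × T => ((g, p.1) : G × Y)) :=
      measurable_const.prodMk measurable_fst
    exact measurable_snd.add (h2.comp (hS.c_meas.comp h1))
  refine MeasurePreserving.skew_product (hS.mp g) hm' (Eventually.of_forall fun y => ?_)
  have h3 : MeasurePreserving (fun z : T => z + c g y • α) tm tm := by
    unfold tm
    exact measurePreserving_add_right _ _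
  exact h3.map_eq

theorem main (h1 : SysStmt) (h2 : ConvXStmt) (h3 : NoGapXStmt) : SLFinalStmt := by
  obtain ⟨Y, iM, iS, iA, μ, c, hS⟩ := h1
  haveI := hS.prob
  haveI : IsProbabilityMeasure (tm : Measure T) := by unfold tm; infer_instance
  refine ⟨Y × T, inferInstance, inferInstance, act hS ((√2 : ℝ) : T), μ.prod tm,
    inferInstance, act_meas hS _, act_mp hS _, ?_, ?_, ?_⟩
  · intro p
    change ((-1 : G) • p.1, p.2 + c (-1) p.1 • ((√2 : ℝ) : T)) = p
    rw [hS.neg_smul, hS.c_neg, zero_smul, add_zero]
  · intro R ε hε
    exact h3 Y μ c hS (√2) irrational_sqrt_two R ε hε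
  · intro F hF
    exact h2 Y μ c hS (√2) irrational_sqrt_two F hF

end

end W137.BA
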